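import Pool.Agent.H71.NV.Nva

/-!
# Affine labels of the place three, as a property of the windows

`NafQ`: if the places one, two, three have the same slope, larger than one, then the place three has
affine labels just before all windows of `G` near the window. `NafNear`: nearly affine labels on
parts, at windows of `G` near the window, from affine labels of the places one and two.
`aePG_naf`: `NafQ` at almost every window, in a subclass, from `NafNear`.
-/

set_option autoImplicit false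

namespace Pool.PKG

open Finset MeasureTheory
open Pool.Agent.H49.Ent Pool.Agent.H32.Dense Pool.STK Pool.KA Pool.KSAT Pool.K2S Pool.PB Pool.GEN
open Pool.S6C Pool.GRW Pool.RCD
open Pool.TOP (TopS)
open Pool.CHT
open Pool.OWN72 (epo cc_epo Ctw Dsc gs_act ctw_ae dns_pt dsc_pos)
open Pool.AVG96 (SlpG slpG_of gap_ae)
open Pool.CDX (AfG AffL afG_two)
open Pool.LA91 (HerQ)
open Pool.NV71 (NAf afG_max)

variable {n : ℕ} {hn : 2 ≤ n} {S : PCl n} {P : ℝ → ℝ → ℝ} {r : ℝ → ℝ}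
  {P' : ℕ → List (Fin n) × Fin n → ℝ → ℝ → ℝ} {Λ : Finset (Fin n) → Fin n → ℝ → ℝ → ℝ}
  {PB : ℕ → List (Fin n) × Fin n → ℝ → ℝ → ℝ} {PQ : ℚ → List (Fin n) × Fin n → ℝ → ℝ → ℝ}

/-- The level of a place is at least the window. -/
theorem le_lvl (H : Pk hn S P r P' Λ) (hTop : TopS n) (hF : FZX (n - 1)) {o : Od n} {w : ℝ}
    (hw : w ∈ Gs P r P' Λ o) {l : ℕ} (hl : l ≤ n - 1) : w ≤ LvL hn P P' o l w w := by
  have hw0 : 0 < w := hw.1.1.1
  have hw1 : w < 1 := hw.1.1.2.1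
  rcases Nat.lt_or_ge l (n - 1) with h | h
  · rw [gs_lvl H hTop hF hw h]
    exact le_vs H.lam (epo hn o) hw1.le _
  · obtain rfl : l = n - 1 := by omega
    rw [LvL_top]
    exact H.tgs.low () w w hw0.le le_rfl hw1.le

/-- **Nearly affine labels near a window**: the places one, two, three have the same slope, larger
than one, and the places one and two have affine labels near the window. -/
def NafNear (n : ℕ) : Prop :=
  ∀ (hn : 2 ≤ n) (S : PCl n) (P : ℝ → ℝ → ℝ) (r : ℝ → ℝ)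
    (P' : ℕ → List (Fin n) × Fin n → ℝ → ℝ → ℝ) (Λ : Finset (Fin n) → Fin n → ℝ → ℝ → ℝ)
    (PB : ℕ → List (Fin n) × Fin n → ℝ → ℝ → ℝ) (PQ : ℚ → List (Fin n) × Fin n → ℝ → ℝ → ℝ),
    PkB hn S P r P' Λ PB PQ → TopS n → FZX (n - 1) → ∀ (o : Od n) (G : Set ℝ), IsClosed G →
      G ⊆ Gs P r P' Λ o → 2 < n - 1 →
      (∀ᵐ g : ℝ, g ∈ G → 1 < deriv (fun a => LvL hn P P' o 1 a a) g →
        AfG S (cc hn o.1.1) (fun w l => LvL hn P P' o l w w) G g 1 ∧
        AfG S (cc hn o.1.1) (fun w l => LvL hn P P' o l w w) G g 2) →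
      ∀ᵐ g : ℝ, g ∈ G → 1 < deriv (fun a => LvL hn P P' o 1 a a) g →
        deriv (fun a => LvL hn P P' o 1 a a) g = deriv (fun a => LvL hn P P' o 2 a a) g →
        deriv (fun a => LvL hn P P' o 2 a a) g = deriv (fun a => LvL hn P P' o 3 a a) g →
        ∀ κ : ℝ, 0 < κ → ∃ ρ : ℝ, 0 < ρ ∧ ∀ R : ℝ, 0 < R → R < ρ → ∀ u : ℝ, |u - g| ≤ R →
          ∃ w ∈ G, u ≤ w ∧ w ≤ u + κ * R ∧
            NAf S (cc hn o.1.1) 3 w (LvL hn P P' o 3 w w) (κ * R)

/-- **Affine labels** of the place three just before all windows of `G` near the window, if the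
places one, two, three have the same slope, larger than one. -/
def NafQ {n : ℕ} (_ : Unit) (_ : ℕ) (S : PCl n) (_ : List (Fin n) × Fin n → ℝ → ℝ → ℝ) (_ : ℝ)
    (c : ℕ → Fin n) (_ : ℝ → ℝ → ℝ) (_ : ℝ → ℝ) (L _ : ℕ → ℝ → ℝ → ℝ) (_ : ℕ → Kg)
    (G : Set ℝ) (x : ℝ) : Prop :=
  2 < n - 1 → 1 < deriv (fun a => L 1 a a) x →
    deriv (fun a => L 1 a a) x = deriv (fun a => L 2 a a) x →
    deriv (fun a => L 2 a a) x = deriv (fun a => L 3 a a) x →
    AfG S c (fun w l => L l w w) G x 3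

theorem her_naf (n : ℕ) : HerQ (NafQ : PropG n Unit) := by
  intro p k₀ S S' P θ c Pt r L T κ G x hs h h1 h2 h3 h4
  exact (h h1 h2 h3 h4).sub hs

/-- **It holds at almost every window**, in a subclass. -/
theorem aePG_naf {n : ℕ} (hN : NafNear n) : AePG n (NafQ : PropG n Unit) := by
  intro hn S P r P' Λ PB PQ H hTop hF o G hG hGs
  by_cases h2 : 2 < n - 1
  swap
  · exact ⟨S, H.toPk.ne, fun _ _ _ _ h => h, Filter.Eventually.of_forall fun g _ κ _ p =>
      ⟨0, fun h => absurd h h2⟩⟩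
  obtain ⟨S₁, a1, a2, a3⟩ := aePG_af n hn S P r P' Λ PB PQ H hTop hF o G hG hGs
  have H₁ : PkB hn S₁ P r P' Λ PB PQ := H.sub a1 a2
  obtain ⟨S', b1, b2, b3⟩ := afG_max H₁.toPk.ne (cc hn o.1.1)
  refine ⟨S', b1, fun τ J F A h => a2 τ J F A (b2 τ J F A h), ?_⟩
  have haf : ∀ᵐ g : ℝ, g ∈ G → 1 < deriv (fun a => LvL hn P P' o 1 a a) g →
      AfG S₁ (cc hn o.1.1) (fun w l => LvL hn P P' o l w w) G g 1 ∧
      AfG S₁ (cc hn o.1.1) (fun w l => LvL hn P P' o l w w) G g 2 := by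
    filter_upwards [a3] with g hg h3 h4
    obtain ⟨k₀, hk⟩ := hg h3 (fun _ => .any) (fun _ _ => trivial) ()
    exact hk h2 h4
  have hnn := hN hn S₁ P r P' Λ PB PQ H₁ hTop hF o G hG hGs h2 haf
  filter_upwards [hnn, gap_ae hG, H.toPkT.dia_all H.pble hTop hF, sl_one H.toPkT hTop hF] with
    g knn kgap kdia ksl hg κ _ p
  refine ⟨0, fun _ hs1 hs12 hs23 => ?_⟩
  have hgG := hGs hg
  have hder : ∀ l, l ≤ n - 1 → HasDerivAt (fun a => LvL hn P P' o l a a)
      (deriv (fun a => LvL hn P P' o l a a) g) g := fun l hl =>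
    (kdia o hgG l hl).1.hasDerivAt
  have hnn : ∀ l, 1 ≤ l → l ≤ 3 → 0 ≤ deriv (fun a => LvL hn P P' o l a a) g := fun l _ hl => by
    have h5 : 1 ≤ deriv (fun a => LvL hn P P' o l a a) g := ksl o hgG l (by omega)
    linarith
  have hgt : ∀ l, 1 ≤ l → l < 3 → 1 < deriv (fun a => LvL hn P P' o l a a) g := fun l h3 h4 => by
    have hl : l = 1 ∨ l = 2 := by omega
    rcases hl with rfl | rfl
    · exact hs1
    · rw [← hs12]
      exact hs1
  have hSG : SlpG (fun w l => LvL hn P P' o l w w) 1 3 G g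
      (fun l => deriv (fun a => LvL hn P P' o l a a) g) :=
    slpG_of hnn hgt (fun l _ h4 => (hder l (by omega)).hasDerivWithinAt) (kgap hg)
  have hg0 : 0 < g := hgG.1.1.1
  refine b3 hSG (by norm_num) le_rfl hgG.1.1.2.1 ⟨g / 2, g / 2, by linarith, by linarith,
    fun w hw w1 _ => ?_⟩ (knn hg hs1 hs12 hs23)
  have h6 := le_lvl H.toPk hTop hF (hGs hw) (l := 3) (by omega)
  show g / 2 ≤ LvL hn P P' o 3 w w
  linarith

end Pool.PKG
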