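import Pool.Agent.H3.D2G.Afq
import Pool.Agent.H2.GEN.CloB
import Pool.Agent.H71.CDX.Cdh

/-!
# Nearly affine labels and affine labels

`NAf`: a closed chart whose label of the place `i` is nearly affine on the natural box of each
sample. `naf_lab`: then there are labels of degree at most one on a part. `naf_max`: they hold in a
subclass, at all rational windows and precisions at once. `afG_max`: `AfG` from nearly affine labels
at the windows near a point.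
-/

set_option autoImplicit false

namespace Pool.NV71

open Finset Real MvPolynomial
open Pool.Agent.H49.Ent Pool.Agent.H32.Dense Pool.STK Pool.KA Pool.KSAT Pool.K2S Pool.PB Pool.GEN
open Pool.S6C Pool.RCD Pool.LA91 Pool.CHT Pool.AVG96
open Pool.GRD (LbP)
open Pool.MIC6 (her_sub)
open Pool.CDX (AfG AffL slpG_lev)
open Pool.ISO (Clsd)

variable {m : ℕ}

/-- **A nearly affine label** of the place `i` at the window `w`, on a part, with loss `lam`. -/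
def NAf {m : ℕ} (S : PCl m) (c : ℕ → Fin m) (i : ℕ) (w p lam : ℝ) : Prop :=
  ∃ (K₁ : ℝ) (D : ℕ), 0 < K₁ ∧ Bas S (fun J F A => ∃ (B : F.Ω → Prop) (g : ℕ → ℕ) (e : ℕ)
    (G : PtT F → ℕ → MvPolynomial (Option (Fin m)) ℝ)
    (H : LnT F → ℕ → MvPolynomial (Option (Fin m)) ℝ), Sub B A ∧ Pe F.p A ≤ K₁ * Pe F.p B ∧
    ChOK F c (i + 1) (fun _ => D) ⌊w * J⌋₊ ⌊w * J⌋₊ e g B G H ∧
    Clsd F (i + 1) ⌊w * J⌋₊ B G H ∧ (p - lam) * J ≤ g i ∧
    ∀ ω, B ω → ∃ Q : MvPolynomial (Option (Fin m)) ℝ, Q.totalDegree ≤ 1 ∧ DepC c i Q ∧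
      ∀ b, NBx c (G (ptr F J ω)) g ⌊w * J⌋₊ (F.t ω) i b →
        |eval b (G (ptr F J ω) i) - eval b Q| ≤ 2 ^ ⌊lam * J⌋₊ / 2 ^ g i)

theorem NAf.sub {S S' : PCl m} {c : ℕ → Fin m} {i : ℕ} {w p lam : ℝ} (h : NAf S c i w p lam)
    (hs : ∀ (τ : ℝ) (J : ℕ) (F : Fam m J) (A : F.Ω → Prop),
      S'.St τ J F A → S.St τ J F A) : NAf S' c i w p lam := by
  obtain ⟨K₁, D, hK, hb⟩ := h
  exact ⟨K₁, D, hK, hb.sub hs⟩

/-- **One scale**: the labels of degree at most one. -/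
theorem naf_one {J : ℕ} {F : Fam m J} {c : ℕ → Fin m} {i D W e : ℕ} {g : ℕ → ℕ}
    {B : F.Ω → Prop} {G : PtT F → ℕ → MvPolynomial (Option (Fin m)) ℝ}
    {H : LnT F → ℕ → MvPolynomial (Option (Fin m)) ℝ} {n P : ℕ} (hW : W ≤ J)
    (hch : ChOK F c (i + 1) (fun _ => D) W W e g B G H) (hcl : Clsd F (i + 1) W B G H)
    (hQ : ∀ ω, B ω → ∃ Q : MvPolynomial (Option (Fin m)) ℝ, Q.totalDegree ≤ 1 ∧ DepC c i Q ∧
      ∀ b, NBx c (G (ptr F J ω)) g W (F.t ω) i b →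
        |eval b (G (ptr F J ω) i) - eval b Q| ≤ 2 ^ n / 2 ^ g i) (hP : P + n + 1 ≤ g i) :
    ∃ (V : Type) (z : PtT F → V) (z' : LnT F → V)
      (R : V → MvPolynomial (Option (Fin m)) ℝ),
      LbP F ((range i).image c) (c i) 1 J W P B z z' R := by
  classical
  obtain ⟨z, hz⟩ : ∃ z : PtT F → (ℕ → MvPolynomial (Option (Fin m)) ℝ) × ℕ, z = fun y =>
    (fun l => if l ≤ i then G y l else 0, y.2.1 / 2 ^ (J - W)) := ⟨_, rfl⟩
  obtain ⟨z', hz'⟩ : ∃ z' : LnT F → (ℕ → MvPolynomial (Option (Fin m)) ℝ) × ℕ, z' = fun s =>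
    (fun l => if l ≤ i then H s l else 0, s.2.2) := ⟨_, rfl⟩
  have hcls : ∀ ω, B ω → z (ptr F J ω) = z' (slam F W ω) := by
    intro ω hω
    rw [hz, hz']
    simp only [Prod.mk.injEq]
    refine ⟨?_, rfl⟩
    funext l
    by_cases hl : l ≤ i
    · rw [if_pos hl, if_pos hl]
      exact hcl ω hω l (by omega)
    · rw [if_neg hl, if_neg hl]
  choose! Q hQ1 hQ2 hQ3 using hQ
  obtain ⟨R, hR⟩ : ∃ R : (ℕ → MvPolynomial (Option (Fin m)) ℝ) × ℕ →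
      MvPolynomial (Option (Fin m)) ℝ, R = fun v =>
        if h : ∃ ω, B ω ∧ z (ptr F J ω) = v then Q h.choose else 0 := ⟨_, rfl⟩
  refine ⟨_, z, z', R, fun v => ?_, fun v b b' hn hb => ?_, hcls, fun ω hω => ?_⟩
  · rw [hR]
    by_cases h : ∃ ω, B ω ∧ z (ptr F J ω) = v
    · simp only [dif_pos h]
      exact hQ1 _ h.choose_spec.1
    · simp only [dif_neg h]
      rw [totalDegree_zero]
      exact Nat.zero_le _
  · rw [hR]
    by_cases h : ∃ ω, B ω ∧ z (ptr F J ω) = v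
    · simp only [dif_pos h]
      exact hQ2 _ h.choose_spec.1 b b' hn fun l hl => hb _ (by
        rw [Finset.mem_image]
        exact ⟨l, Finset.mem_range.2 hl, rfl⟩)
    · simp only [dif_neg h, map_zero]
  · have hex : ∃ ω', B ω' ∧ z (ptr F J ω') = z' (slam F W ω) := ⟨ω, hω, hcls ω hω⟩
    obtain ⟨ω₀, hω₀⟩ : ∃ ω₀, ω₀ = hex.choose := ⟨_, rfl⟩
    have h0 : B ω₀ := by
      rw [hω₀]
      exact hex.choose_spec.1
    have h1 : z (ptr F J ω₀) = z (ptr F J ω) := by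
      rw [hω₀, hcls ω hω]
      exact hex.choose_spec.2
    have hRe : R (z' (slam F W ω)) = Q ω₀ := by
      rw [hR, hω₀]
      simp only [dif_pos hex]
    rw [hRe]
    rw [hz] at h1
    simp only [Prod.mk.injEq] at h1
    obtain ⟨h2, h3⟩ := h1
    have hG : ∀ l ≤ i, G (ptr F J ω₀) l = G (ptr F J ω) l := fun l hl => by
      have h4 := congrFun h2 l
      simp only [if_pos hl] at h4
      exact h4
    -- the time
    have hT : |F.t ω - F.t ω₀| ≤ 1 / 2 ^ W := by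
      have h4 : F.T ω / 2 ^ (J - W) = F.T ω₀ / 2 ^ (J - W) := h3.symm
      have hpos : 0 < 2 ^ (J - W) := by positivity
      have e1 := Nat.div_add_mod (F.T ω) (2 ^ (J - W))
      have e2 := Nat.div_add_mod (F.T ω₀) (2 ^ (J - W))
      have e3 := Nat.mod_lt (F.T ω) hpos
      have e4 := Nat.mod_lt (F.T ω₀) hpos
      rw [h4] at e1
      have e5 : (F.T ω : ℝ) - F.T ω₀ ≤ 2 ^ (J - W) := by
        have h5 : F.T ω ≤ F.T ω₀ + 2 ^ (J - W) := by omega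
        have h6 : ((F.T ω : ℕ) : ℝ) ≤ ((F.T ω₀ + 2 ^ (J - W) : ℕ) : ℝ) := by exact_mod_cast h5
        push_cast at h6
        linarith
      have e6 : (F.T ω₀ : ℝ) - F.T ω ≤ 2 ^ (J - W) := by
        have h5 : F.T ω₀ ≤ F.T ω + 2 ^ (J - W) := by omega
        have h6 : ((F.T ω₀ : ℕ) : ℝ) ≤ ((F.T ω + 2 ^ (J - W) : ℕ) : ℝ) := by exact_mod_cast h5
        push_cast at h6
        linarith
      have e7 : F.t ω - F.t ω₀ = ((F.T ω : ℝ) - F.T ω₀) / 2 ^ J := by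
        unfold Fam.t
        ring
      have e8 : (2 : ℝ) ^ J = 2 ^ (J - W) * 2 ^ W := by
        rw [← pow_add]
        congr 1
        omega
      rw [e7, abs_div, abs_of_pos (by positivity : (0 : ℝ) < 2 ^ J), e8,
        div_le_div_iff₀ (by positivity) (by positivity)]
      have e9 : |(F.T ω : ℝ) - F.T ω₀| ≤ 2 ^ (J - W) := abs_le.2 ⟨by linarith, e5⟩
      have := mul_le_mul_of_nonneg_right e9 (by positivity : (0 : ℝ) ≤ 2 ^ W)
      linarith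
    have hbx : NBx c (G (ptr F J ω₀)) g W (F.t ω₀) i (bt F ω) := by
      refine ⟨hT, fun l hl => ?_⟩
      rw [hG l hl.le]
      exact hch.pos ω hω l (by omega)
    have h5 := hQ3 ω₀ h0 _ hbx
    have h6 := hch.pos ω hω i (by omega)
    rw [hG i le_rfl] at h5
    have h7 : |F.x ω (c i) - eval (bt F ω) (Q ω₀)| ≤ 1 / 2 ^ g i + 2 ^ n / 2 ^ g i := by
      have h8 : F.x ω (c i) - eval (bt F ω) (Q ω₀) =
          (F.x ω (c i) - eval (bt F ω) (G (ptr F J ω) i)) +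
            (eval (bt F ω) (G (ptr F J ω) i) - eval (bt F ω) (Q ω₀)) := by ring
      rw [h8]
      exact (abs_add_le _ _).trans (add_le_add h6 h5)
    refine h7.trans ?_
    have h9 : (1 : ℝ) ≤ 2 ^ n := one_le_pow₀ (by norm_num)
    have h10 : (1 : ℝ) / 2 ^ g i + 2 ^ n / 2 ^ g i ≤ 2 ^ (n + 1) / 2 ^ g i := by
      rw [← add_div]
      refine div_le_div_of_nonneg_right ?_ (by positivity)
      rw [pow_succ]
      linarith
    refine h10.trans ?_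
    rw [div_le_div_iff₀ (by positivity) (by positivity), one_mul, ← pow_add]
    exact pow_le_pow_right₀ (by norm_num) (by omega)

/-- **Labels of degree at most one on a part.** -/
theorem naf_lab {S : PCl m} {c : ℕ → Fin m} {i : ℕ} {w p lam p' : ℝ} (h : NAf S c i w p lam)
    (hw1 : w ≤ 1) (hp0 : 0 ≤ p') (hlam : 0 ≤ lam) (hp : p' < p - 2 * lam) {w' : ℝ}
    (hw' : w ≤ w') (hw'1 : w' ≤ 1) :
    ∃ K₁ : ℝ, Bas S (fun J F A => ∃ B : F.Ω → Prop, Sub B A ∧ Pe F.p A ≤ K₁ * Pe F.p B ∧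
      ∃ (V : Type) (z : PtT F → V) (z' : LnT F → V) (R : V → MvPolynomial (Option (Fin m)) ℝ),
        LbP F ((range i).image c) (c i) 1 J ⌊w' * J⌋₊ ⌊p' * J⌋₊ B z z' R) := by
  obtain ⟨K₁, D, hK, hb⟩ := h
  obtain ⟨J₁, hJ₁⟩ := exists_nat_ge (1 / (p - 2 * lam - p'))
  refine ⟨K₁, Bas.mono J₁ hb ?_⟩
  rintro J hJ F A ⟨B, g, e, G, H, q1, q2, q3, q4, q5, q6⟩
  have hJ0 : (0 : ℝ) ≤ J := Nat.cast_nonneg J
  have hfl : ∀ x : ℝ, x ≤ 1 → ⌊x * J⌋₊ ≤ J := fun x hx => by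
    have h1 : x * J ≤ J := by nlinarith
    calc ⌊x * J⌋₊ ≤ ⌊(J : ℝ)⌋₊ := Nat.floor_le_floor h1
      _ = J := Nat.floor_natCast J
  have hJ1 : 1 ≤ (p - 2 * lam - p') * J := by
    have h1 : (J₁ : ℝ) ≤ J := by exact_mod_cast hJ
    have h2 := hJ₁.trans h1
    rw [div_le_iff₀ (by linarith)] at h2
    linarith
  have hP : ⌊p' * J⌋₊ + ⌊lam * J⌋₊ + 1 ≤ g i := by
    have h1 : ((⌊p' * J⌋₊ + ⌊lam * J⌋₊ + 1 : ℕ) : ℝ) ≤ g i := by
      push_cast
      have h2 := Nat.floor_le (show 0 ≤ p' * J by positivity)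
      have h3 := Nat.floor_le (show 0 ≤ lam * J by positivity)
      linarith
    exact_mod_cast h1
  obtain ⟨V, z, z', R, hR⟩ := naf_one (hfl w hw1) q3 q4 q6 hP
  have hR' := hR.win (Nat.floor_le_floor (mul_le_mul_of_nonneg_right hw' hJ0)) (hfl w' hw'1)
  exact ⟨B, q1, q2, V, z, _, R, hR'⟩

/-- **Labels of degree at most one in a subclass**, at all rational windows and precisions where
they hold on parts. -/
theorem naf_max {S : PCl m} (hS : S.Ne) (c : ℕ → Fin m) : ∃ S' : PCl m, S'.Ne ∧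
    (∀ (τ : ℝ) (J : ℕ) (F : Fam m J) (A : F.Ω → Prop), S'.St τ J F A → S.St τ J F A) ∧
    ∀ (i : ℕ) (b p : ℚ) (K₁ : ℝ), Bas S (fun J F A => ∃ B : F.Ω → Prop, Sub B A ∧
        Pe F.p A ≤ K₁ * Pe F.p B ∧ ∃ (V : Type) (z : PtT F → V) (z' : LnT F → V)
        (R : V → MvPolynomial (Option (Fin m)) ℝ),
        LbP F ((range i).image c) (c i) 1 J ⌊(b : ℝ) * J⌋₊ ⌊(p : ℝ) * J⌋₊ B z z' R) →
      AffL S' ((range i).image c) (c i) b p := by
  classical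
  obtain ⟨f, hf⟩ : ∃ f : ℕ → ℕ × ℚ × ℚ × ℕ, Function.Surjective f :=
    exists_surjective_nat _
  obtain ⟨Φ, hΦ⟩ : ∃ Φ : ℕ × ℚ × ℚ × ℕ → Prop, Φ = fun x => Bas S (fun J F A =>
      ∃ B : F.Ω → Prop, Sub B A ∧ Pe F.p A ≤ (x.2.2.2 : ℝ) * Pe F.p B ∧
        ∃ (V : Type) (z : PtT F → V) (z' : LnT F → V)
        (R : V → MvPolynomial (Option (Fin m)) ℝ),
        LbP F ((range x.1).image c) (c x.1) 1 J ⌊(x.2.1 : ℝ) * J⌋₊ ⌊(x.2.2.1 : ℝ) * J⌋₊
          B z z' R) := ⟨_, rfl⟩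
  obtain ⟨S', h1, h2, h3⟩ := her_sub hS (fun n J F A => Φ (f n) →
      ∃ (V : Type) (z : PtT F → V) (z' : LnT F → V)
        (R : V → MvPolynomial (Option (Fin m)) ℝ),
        LbP F ((range (f n).1).image c) (c (f n).1) 1 J ⌊((f n).2.1 : ℝ) * J⌋₊
          ⌊((f n).2.2.1 : ℝ) * J⌋₊ A z z' R)
    (fun n J F A B hB hA hn => by
      obtain ⟨V, z, z', R, hR⟩ := hA hn
      exact ⟨V, z, z', R, hR.sub hB⟩) (fun n => by
      by_cases hn : Φ (f n)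
      · have hn' := hn
        rw [hΦ] at hn'
        refine ⟨((f n).2.2.2 : ℝ), Bas.mono 0 hn' ?_⟩
        rintro J - F A ⟨B, q1, q2, q3⟩
        exact ⟨B, q1, q2, fun _ => q3⟩
      · refine ⟨1, 1, one_pos, 0, fun J _ F A _ => ⟨A, fun _ h => h, by rw [one_mul],
          fun h => absurd h hn⟩⟩)
  refine ⟨S', h1, h2, fun i b p K₁ hb => ?_⟩
  obtain ⟨K, hK⟩ := exists_nat_ge K₁
  obtain ⟨n, hn⟩ := hf (i, b, p, K)
  have hn' : Φ (f n) := by
    rw [hΦ, hn]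
    refine Bas.mono 0 hb ?_
    rintro J - F A ⟨B, q1, q2, q3⟩
    exact ⟨B, q1, q2.trans (mul_le_mul_of_nonneg_right hK (Pe_nonneg F.isLaw _)), q3⟩
  intro e he
  have h4 := h3 n
  rw [hn] at h4
  rw [hn] at hn'
  refine Bas.mono 0 h4 ?_
  rintro J - F A h5
  obtain ⟨V, z, z', R, hR⟩ := h5 hn'
  exact ⟨V, z, z', R, hR.mono (Finset.Subset.refl _) le_rfl (Nat.floor_le_floor
    (mul_le_mul_of_nonneg_right (by linarith) (Nat.cast_nonneg J)))⟩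

/-- **Affine labels at the windows near a point**, from nearly affine labels. -/
theorem afG_max {S : PCl m} (hS : S.Ne) (c : ℕ → Fin m) : ∃ S' : PCl m, S'.Ne ∧
    (∀ (τ : ℝ) (J : ℕ) (F : Fam m J) (A : F.Ω → Prop), S'.St τ J F A → S.St τ J F A) ∧
    ∀ {r₀ r i : ℕ} {sn : ℝ → ℕ → ℝ} {G : Set ℝ} {g : ℝ} {Sl : ℕ → ℝ},
      SlpG sn r₀ r G g Sl → r₀ ≤ i → i ≤ r → g < 1 →
      (∃ p₀ ρ₀ : ℝ, 0 < p₀ ∧ 0 < ρ₀ ∧ ∀ w ∈ G, g - ρ₀ ≤ w → w ≤ g + ρ₀ → p₀ ≤ sn w i) →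
      (∀ κ : ℝ, 0 < κ → ∃ ρ : ℝ, 0 < ρ ∧ ∀ R : ℝ, 0 < R → R < ρ → ∀ u : ℝ, |u - g| ≤ R →
        ∃ w ∈ G, u ≤ w ∧ w ≤ u + κ * R ∧ NAf S c i w (sn w i) (κ * R)) →
      AfG S' c sn G g i := by
  obtain ⟨S', h1, h2, h3⟩ := naf_max hS c
  refine ⟨S', h1, h2, ?_⟩
  rintro r₀ r i sn G g Sl hSl h0 hi hg1 ⟨p₀, ρ₀, hp₀, hρ₀, hpos⟩ hN κ hκ
  have hS0 := hSl.nn i h0 hi
  obtain ⟨κ₁, hκ₁⟩ : ∃ κ₁, κ₁ = min (κ / (32 * (Sl i + 1))) (1 / 8) := ⟨_, rfl⟩
  have k0 : 0 < κ₁ := by rw [hκ₁]; positivity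
  have k1 : κ₁ ≤ 1 / 8 := by rw [hκ₁]; exact min_le_right _ _
  have k2 : (Sl i + 1) * κ₁ ≤ κ / 32 := by
    have h4 : κ₁ ≤ κ / (32 * (Sl i + 1)) := by rw [hκ₁]; exact min_le_left _ _
    calc (Sl i + 1) * κ₁ ≤ (Sl i + 1) * (κ / (32 * (Sl i + 1))) :=
          mul_le_mul_of_nonneg_left h4 (by positivity)
      _ = κ / 32 := by field_simp
  obtain ⟨ρ₁, hρ₁, H1⟩ := hN (κ₁ / 2) (by positivity)
  obtain ⟨ρ₂, hρ₂, H2⟩ := slpG_lev hSl (M := 2) (κ := κ / 4) (by norm_num) (by positivity)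
  refine ⟨min (min (ρ₁ / 2) ρ₂) (min (ρ₀ / 2) (min ((1 - g) / 2) (p₀ / (κ + 1)))), ?_,
    fun R hR hRρ w hw w1 w2 => ?_⟩
  · have : 0 < 1 - g := by linarith
    positivity
  have r1 : R < ρ₁ / 2 := hRρ.trans_le ((min_le_left _ _).trans (min_le_left _ _))
  have r2 : R < ρ₂ := hRρ.trans_le ((min_le_left _ _).trans (min_le_right _ _))
  have r3 : R < ρ₀ / 2 := hRρ.trans_le ((min_le_right _ _).trans (min_le_left _ _))
  have r4 : R < (1 - g) / 2 := hRρ.trans_le ((min_le_right _ _).trans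
    ((min_le_right _ _).trans (min_le_left _ _)))
  have r5 : R < p₀ / (κ + 1) := hRρ.trans_le ((min_le_right _ _).trans
    ((min_le_right _ _).trans (min_le_right _ _)))
  rw [lt_div_iff₀ (by linarith)] at r5
  have hκR : 0 < κ₁ * R := by positivity
  have hκR2 : κ₁ * R ≤ 1 / 8 * R := mul_le_mul_of_nonneg_right k1 hR.le
  have hκR3 : 0 < κ * R := by positivity
  have e1 : R * (κ + 1) = κ * R + R := by ring
  -- the nearly affine label just before `w`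
  obtain ⟨v, hv, v1, v2, hNv⟩ := H1 (2 * R) (by linarith) (by linarith) (w - 3 * (κ₁ * R)) (by
    rw [abs_le]
    constructor <;> linarith)
  have e2 : κ₁ / 2 * (2 * R) = κ₁ * R := by ring
  rw [e2] at v2 hNv
  obtain ⟨b, b1, b2⟩ := exists_rat_btwn (show v < w by linarith)
  have hlev := abs_le.1 (H2 R hR r2 i h0 hi v hv w hw (by linarith) (by linarith) (by linarith))
  have e3 : Sl i * (w - v) ≤ Sl i * (3 * (κ₁ * R)) :=
    mul_le_mul_of_nonneg_left (by linarith) hS0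
  have e4 : (Sl i + 1) * (κ₁ * R) ≤ κ / 32 * R := by
    have := mul_le_mul_of_nonneg_right k2 hR.le
    linarith
  have e5 : (Sl i + 1) * (κ₁ * R) = Sl i * (κ₁ * R) + κ₁ * R := by ring
  have e6 : 0 ≤ Sl i * (κ₁ * R) := by positivity
  obtain ⟨p, p1, p2⟩ := exists_rat_btwn (show sn v i - 3 * (κ₁ * R) < sn v i - 2 * (κ₁ * R) by
    linarith)
  have hsv := hpos v hv (by linarith) (by linarith)
  refine ⟨b, p, b2.le, by linarith, ?_⟩
  obtain ⟨K₁, hK⟩ := naf_lab hNv (by linarith) (p' := p) (by linarith) hκR.le p2 b1.le (by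
    linarith)
  exact h3 i b p K₁ hK

end Pool.NV71
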